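import Pool.Agent.Helper72.GP.GoalsB

/-!
# MP_c9dfb5_co, project GP, packet STEP: one step of the downward induction
-/

set_option autoImplicit false

namespace Pool.Agent.Helper74.GP

open Finset Pool.Agent.Helper72.GP
open scoped Classical

theorem dvd_gd (h : ℕ) (x y : Pt) :
    h ∣ gd x y ↔ (h : ℤ) ∣ x.1 - y.1 ∧ (h : ℤ) ∣ x.2 - y.2 := by
  unfold gd
  rw [Int.gcd_def, Nat.dvd_gcd_iff, Int.natCast_dvd, Int.natCast_dvd]

theorem mem_cls {P : Finset Pt} {h : ℕ} {x y : Pt} : y ∈ cls P h x ↔ y ∈ P ∧ h ∣ gd x y := by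
  unfold cls
  rw [mem_filter]

theorem self_mem_cls {P : Finset Pt} (h : ℕ) {x : Pt} (hx : x ∈ P) : x ∈ cls P h x := by
  rw [mem_cls, dvd_gd]
  simp [hx]

theorem cls_subset {P : Finset Pt} {h q : ℕ} {x y : Pt} (hy : y ∈ cls P h x) :
    cls P (h * q) y ⊆ cls P h x := by
  intro z hz
  rw [mem_cls, dvd_gd] at hz hy ⊢
  obtain ⟨hzP, hz1, hz2⟩ := hz
  obtain ⟨_, hy1, hy2⟩ := hy
  have hd : (h : ℤ) ∣ ((h * q : ℕ) : ℤ) := ⟨q, by push_cast; ring⟩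
  refine ⟨hzP, ?_, ?_⟩
  · have h1 := dvd_add hy1 (hd.trans hz1)
    have h2 : x.1 - y.1 + (y.1 - z.1) = x.1 - z.1 := by ring
    rwa [h2] at h1
  · have h1 := dvd_add hy2 (hd.trans hz2)
    have h2 : x.2 - y.2 + (y.2 - z.2) = x.2 - z.2 := by ring
    rwa [h2] at h1

theorem Fh_le (P : Finset Pt) (G : ℝ) (h : ℕ) (x : Pt) :
    (Fh P G h x : ℝ) ≤ ((cls P h x).card : ℝ) * ((cls P h x).card - 1) := by
  have h1 : Fh P G h x ≤ (cls P h x).offDiag.card := by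
    unfold Fh
    apply card_le_card
    intro p hp
    rw [mem_filter, mem_product] at hp
    rw [mem_offDiag]
    exact ⟨hp.1.1, hp.1.2, hp.2.1⟩
  rw [offDiag_card] at h1
  have h2 : (cls P h x).card ≤ (cls P h x).card * (cls P h x).card := by
    rcases Nat.eq_zero_or_pos (cls P h x).card with h0 | h0
    · rw [h0]
    · exact Nat.le_mul_of_pos_left _ h0
  have h3 : (Fh P G h x : ℝ) ≤ (((cls P h x).card * (cls P h x).card - (cls P h x).card : ℕ) : ℝ) := by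
    exact_mod_cast h1
  rw [Nat.cast_sub h2, Nat.cast_mul] at h3
  linarith

theorem rpow_three_quarters (m : ℝ) (hm : 0 < m) : m ^ ((7 : ℝ) / 4) / m = m ^ ((3 : ℝ) / 4) := by
  have h1 : m ^ ((7 : ℝ) / 4) = m ^ ((3 : ℝ) / 4) * m := by
    rw [← Real.rpow_add_one hm.ne']
    norm_num
  rw [h1, mul_div_assoc, div_self hm.ne', mul_one]

theorem two_rpow_le : (2 : ℝ) ^ ((3 : ℝ) / 4) ≤ 1.69 := by
  have h1 : ((2 : ℝ) ^ ((3 : ℝ) / 4)) ^ 4 = 8 := by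
    rw [← Real.rpow_natCast, ← Real.rpow_mul (by norm_num)]
    norm_num
  by_contra h
  rw [not_le] at h
  have h2 : (1.69 : ℝ) ^ 4 < ((2 : ℝ) ^ ((3 : ℝ) / 4)) ^ 4 :=
    pow_lt_pow_left₀ h (by norm_num) (by norm_num)
  rw [h1] at h2
  norm_num at h2

/-- the bound of one term -/
theorem term_le {P : Finset Pt} {h q W J : ℕ} {x y : Pt} {δ Yr nn : ℝ}
    (hh : 1 ≤ h) (hq : 2 ≤ q) (hy : y ∈ cls P h x) (hδ : 0 < δ)
    (hY1 : 1 < Yr) (hhY : (h : ℝ) < Yr) (hW : 1 ≤ W) (hWY : (W : ℝ) ≤ Yr) (hnn : 0 < nn)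
    (hF : (Fh P (Yr ^ 2) (h * q) y : ℝ) ≤ Rh nn δ Yr (h * q) (cls P (h * q) y).card) :
    (Fh P (Yr ^ 2) (h * q) y : ℝ) / (cls P (h * q) y).card ≤
      (if q ≤ W then 1 else 0) * (((cls P h x).card : ℝ) ^ ((3 : ℝ) / 4) *
        (nn ^ ((1 : ℝ) / 4 - δ / 16) * (h : ℝ) ^ (-(6 * δ)))) +
      (if ((4 : ℝ) ^ J)⁻¹ ≤ rr P h x q y then (rr P h x q y) ^ ((3 : ℝ) / 4) else 0) *
        ((2 : ℝ) ^ ((3 : ℝ) / 4) * ((cls P h x).card : ℝ) ^ ((3 : ℝ) / 4) *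
        (nn ^ ((1 : ℝ) / 4 - δ / 16) * (h : ℝ) ^ (-(6 * δ))) * (W : ℝ) ^ (-(6 * δ))) +
      (if rr P h x q y < ((4 : ℝ) ^ J)⁻¹ then rr P h x q y else 0) * (cls P h x).card := by
  have hyP : y ∈ P := (mem_cls.1 hy).1
  obtain ⟨m, hm⟩ : ∃ m : ℝ, m = ((cls P (h * q) y).card : ℝ) := ⟨_, rfl⟩
  obtain ⟨s, hs⟩ : ∃ s : ℝ, s = ((cls P h x).card : ℝ) := ⟨_, rfl⟩
  obtain ⟨r, hr⟩ : ∃ r : ℝ, r = rr P h x q y := ⟨_, rfl⟩
  have hm1 : 1 ≤ m := by
    rw [hm]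
    have : 1 ≤ (cls P (h * q) y).card := card_pos.2 ⟨y, self_mem_cls (h * q) hyP⟩
    exact_mod_cast this
  have hs1 : 1 ≤ s := by
    rw [hs]
    have : 1 ≤ (cls P h x).card := card_pos.2 ⟨y, hy⟩
    exact_mod_cast this
  have hms : m ≤ s := by
    rw [hm, hs]
    exact_mod_cast card_le_card (cls_subset hy)
  have hrd : r = (m - 1) / s := by rw [hr, hm, hs]; rfl
  have hrs : r * s = m - 1 := by
    rw [hrd]
    field_simp
  have hr0 : 0 ≤ r := by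
    rw [hrd]
    exact div_nonneg (by linarith) (by linarith)
  have hFm := Fh_le P (Yr ^ 2) (h * q) y
  rw [← hm] at hF hFm ⊢
  rw [← hs, ← hr]
  obtain ⟨K, hK⟩ : ∃ K : ℝ, K = nn ^ ((1 : ℝ) / 4 - δ / 16) * (h : ℝ) ^ (-(6 * δ)) := ⟨_, rfl⟩
  rw [← hK]
  have hh0 : (0 : ℝ) < h := by exact_mod_cast hh
  have hK0 : 0 < K := by
    rw [hK]
    positivity
  have hWp : (0 : ℝ) < W := by exact_mod_cast hW
  have hW1 : (1 : ℝ) ≤ W := by exact_mod_cast hW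
  by_cases hrJ : r < ((4 : ℝ) ^ J)⁻¹
  · rw [if_neg (not_le.2 hrJ), if_pos hrJ, zero_mul, add_zero, hrs]
    have h1 : (Fh P (Yr ^ 2) (h * q) y : ℝ) / m ≤ m - 1 := by
      rw [div_le_iff₀ (by linarith)]
      linarith
    have h2 : 0 ≤ (if q ≤ W then (1 : ℝ) else 0) * (s ^ ((3 : ℝ) / 4) * K) := by
      split_ifs <;> positivity
    linarith
  · rw [not_lt] at hrJ
    rw [if_pos hrJ, if_neg (not_lt.2 hrJ), zero_mul, add_zero]
    have hrpos : 0 < r := lt_of_lt_of_le (by positivity) hrJ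
    have hm2 : m ≤ 2 * (r * s) := by
      rw [hrs]
      have h1 : 0 < m - 1 := by
        rw [← hrs]
        exact mul_pos hrpos (by linarith)
      have h2 : (2 : ℝ) ≤ m := by
        rw [hm] at h1 ⊢
        have h3 : (1 : ℝ) < ((cls P (h * q) y).card : ℝ) := by linarith
        have h4 : 1 < (cls P (h * q) y).card := by exact_mod_cast h3
        exact_mod_cast h4
      linarith
    have hq2 : (2 : ℝ) ≤ q := by exact_mod_cast hq
    have hmin : (h : ℝ) * min (q : ℝ) Yr ≤ min ((h * q : ℕ) : ℝ) (Yr ^ 2) := by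
      apply le_min
      · push_cast
        exact mul_le_mul_of_nonneg_left (min_le_left _ _) hh0.le
      · calc (h : ℝ) * min (q : ℝ) Yr ≤ Yr * Yr :=
            mul_le_mul hhY.le (min_le_right _ _) (le_min (by linarith) (by linarith)) (by linarith)
          _ = Yr ^ 2 := by ring
    have hmin1 : 1 ≤ min (q : ℝ) Yr := le_min (by linarith) hY1.le
    have hpow : (min ((h * q : ℕ) : ℝ) (Yr ^ 2)) ^ (-(6 * δ)) ≤
        (h : ℝ) ^ (-(6 * δ)) * (min (q : ℝ) Yr) ^ (-(6 * δ)) := by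
      rw [← Real.mul_rpow hh0.le (by linarith)]
      exact Real.rpow_le_rpow_of_nonpos (by positivity) hmin (by linarith)
    have hmain : (Fh P (Yr ^ 2) (h * q) y : ℝ) / m ≤
        m ^ ((3 : ℝ) / 4) * (K * (min (q : ℝ) Yr) ^ (-(6 * δ))) := by
      have h1 : (Fh P (Yr ^ 2) (h * q) y : ℝ) / m ≤ Rh nn δ Yr (h * q) m / m := by
        gcongr
      refine h1.trans ?_
      unfold Rh
      rw [hK]
      have h2 : m ^ ((7 : ℝ) / 4) * nn ^ ((1 : ℝ) / 4 - δ / 16) *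
          (min ((h * q : ℕ) : ℝ) (Yr ^ 2)) ^ (-(6 * δ)) / m =
          m ^ ((3 : ℝ) / 4) * (nn ^ ((1 : ℝ) / 4 - δ / 16) *
          (min ((h * q : ℕ) : ℝ) (Yr ^ 2)) ^ (-(6 * δ))) := by
        rw [← rpow_three_quarters m (by linarith)]
        ring
      rw [h2, mul_assoc (nn ^ ((1 : ℝ) / 4 - δ / 16))]
      gcongr
    refine hmain.trans ?_
    by_cases hqW : q ≤ W
    · rw [if_pos hqW, one_mul]
      have h1 : (min (q : ℝ) Yr) ^ (-(6 * δ)) ≤ 1 :=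
        Real.rpow_le_one_of_one_le_of_nonpos hmin1 (by linarith)
      have h2 : m ^ ((3 : ℝ) / 4) ≤ s ^ ((3 : ℝ) / 4) :=
        Real.rpow_le_rpow (by linarith) hms (by norm_num)
      have h3 : m ^ ((3 : ℝ) / 4) * (K * (min (q : ℝ) Yr) ^ (-(6 * δ))) ≤
          s ^ ((3 : ℝ) / 4) * (K * 1) := by gcongr
      rw [mul_one] at h3
      have h4 : 0 ≤ r ^ ((3 : ℝ) / 4) * ((2 : ℝ) ^ ((3 : ℝ) / 4) * s ^ ((3 : ℝ) / 4) * K *
          (W : ℝ) ^ (-(6 * δ))) := by positivity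
      linarith
    · rw [if_neg hqW, zero_mul, zero_add]
      rw [not_le] at hqW
      have hqW' : (W : ℝ) ≤ q := by exact_mod_cast hqW.le
      have h1 : (min (q : ℝ) Yr) ^ (-(6 * δ)) ≤ (W : ℝ) ^ (-(6 * δ)) :=
        Real.rpow_le_rpow_of_nonpos hWp (le_min hqW' hWY) (by linarith)
      have h2 : m ^ ((3 : ℝ) / 4) ≤ (2 * (r * s)) ^ ((3 : ℝ) / 4) :=
        Real.rpow_le_rpow (by linarith) hm2 (by norm_num)
      rw [Real.mul_rpow (by norm_num) (by positivity), Real.mul_rpow hr0 (by linarith)] at h2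
      calc m ^ ((3 : ℝ) / 4) * (K * (min (q : ℝ) Yr) ^ (-(6 * δ)))
          ≤ ((2 : ℝ) ^ ((3 : ℝ) / 4) * (r ^ ((3 : ℝ) / 4) * s ^ ((3 : ℝ) / 4))) *
            (K * (W : ℝ) ^ (-(6 * δ))) := by gcongr
        _ = _ := by ring

theorem dsum_mul {α β : Type} (A : Finset α) (B : Finset β) (f : α → β → ℝ) (c : ℝ) :
    (∑ y ∈ A, ∑ q ∈ B, f y q) * c = ∑ y ∈ A, ∑ q ∈ B, f y q * c := by
  rw [sum_mul]
  exact sum_congr rfl fun y _ => sum_mul _ _ _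

theorem Lam_nonneg (q : ℕ) : 0 ≤ Lam q := ArithmeticFunction.vonMangoldt_nonneg

theorem step (hREC : REC) (hSUMS : SUMS) : STEP := by
  intro P N h x δ Yr J W hbox hN hh hxP hδ hδ1 hYr hY1 hhY hW hWY hfree hind hJ hΛ hWN
  obtain ⟨nn, hnn⟩ : ∃ nn : ℝ, nn = (P.card : ℝ) := ⟨_, rfl⟩
  rw [← hnn] at hYr hJ ⊢
  have hP1 : 1 ≤ P.card := card_pos.2 ⟨x, hxP⟩
  have hnn1 : 1 ≤ nn := by
    rw [hnn]
    exact_mod_cast hP1
  have hnn0 : 0 < nn := by linarith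
  have hN1 : 1 ≤ N := by omega
  obtain ⟨s, hs⟩ : ∃ s : ℝ, s = ((cls P h x).card : ℝ) := ⟨_, rfl⟩
  have hs1 : 1 ≤ s := by
    rw [hs]
    have : 1 ≤ (cls P h x).card := card_pos.2 ⟨x, self_mem_cls h hxP⟩
    exact_mod_cast this
  have hs0 : 0 < s := by linarith
  have hsn : s ≤ nn := by
    rw [hs, hnn]
    exact_mod_cast card_le_card (filter_subset _ _)
  have hh0 : (0 : ℝ) < h := by exact_mod_cast hh
  have hh1 : (1 : ℝ) ≤ h := by exact_mod_cast hh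
  have hWp : (0 : ℝ) < W := by exact_mod_cast hW
  have hlogY : 0 < Real.log Yr := Real.log_pos hY1
  have hlogN : 0 ≤ Real.log N := Real.log_nonneg (by exact_mod_cast hN1)
  obtain ⟨K, hK⟩ : ∃ K : ℝ, K = nn ^ ((1 : ℝ) / 4 - δ / 16) * (h : ℝ) ^ (-(6 * δ)) := ⟨_, rfl⟩
  have hK0 : 0 < K := by
    rw [hK]
    positivity
  have hRh : Rh nn δ Yr h s = s ^ ((7 : ℝ) / 4) * K := by
    unfold Rh
    have h1 : min (h : ℝ) (Yr ^ 2) = h := by
      apply min_eq_left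
      nlinarith
    rw [h1, hK, mul_assoc]
  rw [← hs, hRh]
  -- the three sums
  obtain ⟨S1, S2⟩ := hSUMS P N h x J hN1 hh hxP hfree
  rw [← hs] at S1 S2
  have hrec := hREC P N h x Yr hbox hh hxP hY1 hhY
  obtain ⟨c2, hc2⟩ : ∃ c2 : ℝ, c2 = (2 : ℝ) ^ ((3 : ℝ) / 4) * s ^ ((3 : ℝ) / 4) * K *
    (W : ℝ) ^ (-(6 * δ)) := ⟨_, rfl⟩
  have hc20 : 0 ≤ c2 := by rw [hc2]; positivity
  have hterm : ∀ y ∈ cls P h x, ∀ q ∈ range (N + 1),
      Lam q * ((Fh P (Yr ^ 2) (h * q) y : ℝ) / (cls P (h * q) y).card) ≤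
      (if q ≤ W then Lam q else 0) * (s ^ ((3 : ℝ) / 4) * K) +
      Lam q * (if ((4 : ℝ) ^ J)⁻¹ ≤ rr P h x q y then (rr P h x q y) ^ ((3 : ℝ) / 4) else 0) * c2 +
      Lam q * (if rr P h x q y < ((4 : ℝ) ^ J)⁻¹ then rr P h x q y else 0) * s := by
    intro y hy q _
    by_cases hq : 2 ≤ q
    · have h1 := term_le (P := P) (J := J) hh hq hy hδ hY1 hhY hW hWY hnn0
        (by rw [hnn]; exact hind q hq y hy)
      rw [← hs, ← hK, ← hc2] at h1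
      have h2 := mul_le_mul_of_nonneg_left h1 (Lam_nonneg q)
      refine h2.trans (le_of_eq ?_)
      split_ifs <;> ring
    · have h0 : Lam q = 0 := by
        have hq' : q = 0 ∨ q = 1 := by omega
        unfold Lam
        rcases hq' with rfl | rfl
        · simp
        · simp
      rw [h0]
      simp
  have hsum : ∑ y ∈ cls P h x, ∑ q ∈ range (N + 1),
      Lam q * ((Fh P (Yr ^ 2) (h * q) y : ℝ) / (cls P (h * q) y).card) ≤
      (∑ y ∈ cls P h x, ∑ q ∈ range (N + 1), (if q ≤ W then Lam q else 0)) *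
        (s ^ ((3 : ℝ) / 4) * K) +
      (∑ y ∈ cls P h x, ∑ q ∈ range (N + 1), Lam q *
        (if ((4 : ℝ) ^ J)⁻¹ ≤ rr P h x q y then (rr P h x q y) ^ ((3 : ℝ) / 4) else 0)) * c2 +
      (∑ y ∈ cls P h x, ∑ q ∈ range (N + 1), Lam q *
        (if rr P h x q y < ((4 : ℝ) ^ J)⁻¹ then rr P h x q y else 0)) * s := by
    rw [dsum_mul, dsum_mul, dsum_mul, ← sum_add_distrib, ← sum_add_distrib]
    refine sum_le_sum fun y hy => ?_
    rw [← sum_add_distrib, ← sum_add_distrib]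
    exact sum_le_sum fun q hq => hterm y hy q hq
  -- first sum
  have T1 : (∑ y ∈ cls P h x, ∑ q ∈ range (N + 1), (if q ≤ W then Lam q else 0)) ≤
      s * (Real.log Yr / 4) := by
    have h1 : ∑ q ∈ range (N + 1), (if q ≤ W then Lam q else 0) ≤ Real.log Yr / 4 := by
      rw [← sum_filter]
      refine le_trans (sum_le_sum_of_subset_of_nonneg ?_ fun q _ _ => Lam_nonneg q) hΛ
      intro q hq
      rw [mem_filter] at hq
      rw [mem_range]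
      omega
    rw [sum_const, nsmul_eq_mul, ← hs]
    exact mul_le_mul_of_nonneg_left h1 hs0.le
  have hs74 : s * s ^ ((3 : ℝ) / 4) = s ^ ((7 : ℝ) / 4) := by
    rw [mul_comm, ← Real.rpow_add_one hs0.ne']
    norm_num
  have U1 : (∑ y ∈ cls P h x, ∑ q ∈ range (N + 1), (if q ≤ W then Lam q else 0)) *
      (s ^ ((3 : ℝ) / 4) * K) ≤ s ^ ((7 : ℝ) / 4) * K * (Real.log Yr / 4) := by
    calc _ ≤ (s * (Real.log Yr / 4)) * (s ^ ((3 : ℝ) / 4) * K) :=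
          mul_le_mul_of_nonneg_right T1 (by positivity)
      _ = (s * s ^ ((3 : ℝ) / 4)) * K * (Real.log Yr / 4) := by ring
      _ = _ := by rw [hs74]
  -- second sum
  have hWinv : (W : ℝ) ^ (-(6 * δ)) * Real.log N ≤ Real.log Yr / 2360 := by
    rw [Real.rpow_neg hWp.le, inv_mul_le_iff₀ (by positivity)]
    linarith
  have U2 : (∑ y ∈ cls P h x, ∑ q ∈ range (N + 1), Lam q *
      (if ((4 : ℝ) ^ J)⁻¹ ≤ rr P h x q y then (rr P h x q y) ^ ((3 : ℝ) / 4) else 0)) * c2 ≤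
      s ^ ((7 : ℝ) / 4) * K * (Real.log Yr / 4) := by
    calc _ ≤ (349 * s * Real.log N) * c2 := mul_le_mul_of_nonneg_right S1 hc20
      _ = (2 : ℝ) ^ ((3 : ℝ) / 4) * 349 * ((s * s ^ ((3 : ℝ) / 4)) * K) *
          ((W : ℝ) ^ (-(6 * δ)) * Real.log N) := by rw [hc2]; ring
      _ ≤ 1.69 * 349 * ((s * s ^ ((3 : ℝ) / 4)) * K) * (Real.log Yr / 2360) := by
          have h1 := two_rpow_le
          have h2 : 0 ≤ (W : ℝ) ^ (-(6 * δ)) * Real.log N := by positivity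
          gcongr
      _ ≤ (s * s ^ ((3 : ℝ) / 4)) * K * (Real.log Yr / 4) := by
          have h3 : 0 ≤ ((s * s ^ ((3 : ℝ) / 4)) * K) * Real.log Yr := by positivity
          nlinarith
      _ = _ := by rw [hs74]
  -- third sum
  have hJ2 : 36 * ((2 : ℝ) ^ J)⁻¹ * Real.log N ≤ nn ^ (-(δ / 8)) * (Real.log Yr / 4) := by
    have h1 : (0 : ℝ) < 2 ^ J := by positivity
    have h2 : 0 < nn ^ (δ / 8) := by positivity
    rw [Real.rpow_neg hnn0.le]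
    have h3 : 36 * ((2 : ℝ) ^ J)⁻¹ * Real.log N = (36 * Real.log N) / 2 ^ J := by
      field_simp
    have h4 : (nn ^ (δ / 8))⁻¹ * (Real.log Yr / 4) = (Real.log Yr / 4) / nn ^ (δ / 8) := by
      field_simp
    rw [h3, h4, div_le_div_iff₀ h1 h2]
    linarith
  have hKlow : s * nn ^ (-(δ / 8)) ≤ s ^ ((3 : ℝ) / 4) * K := by
    have h1 : s = s ^ ((3 : ℝ) / 4) * s ^ ((1 : ℝ) / 4) := by
      rw [← Real.rpow_add hs0]
      norm_num
    have h2 : s ^ ((1 : ℝ) / 4) ≤ nn ^ ((1 : ℝ) / 4) :=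
      Real.rpow_le_rpow hs0.le hsn (by norm_num)
    have h3 : nn ^ (-(δ / 16)) ≤ (h : ℝ) ^ (-(6 * δ)) := by
      have h4 : Yr ^ (-(6 * δ)) ≤ (h : ℝ) ^ (-(6 * δ)) :=
        Real.rpow_le_rpow_of_nonpos hh0 hhY.le (by linarith)
      refine le_trans (le_of_eq ?_) h4
      rw [hYr, ← Real.rpow_mul hnn0.le]
      congr 1
      ring
    have h5 : nn ^ ((1 : ℝ) / 4) * nn ^ (-(δ / 8)) =
        nn ^ ((1 : ℝ) / 4 - δ / 16) * nn ^ (-(δ / 16)) := by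
      rw [← Real.rpow_add hnn0, ← Real.rpow_add hnn0]
      congr 1
      ring
    calc s * nn ^ (-(δ / 8)) = s ^ ((3 : ℝ) / 4) * (s ^ ((1 : ℝ) / 4) * nn ^ (-(δ / 8))) := by
          rw [← mul_assoc, ← h1]
      _ ≤ s ^ ((3 : ℝ) / 4) * (nn ^ ((1 : ℝ) / 4) * nn ^ (-(δ / 8))) := by gcongr
      _ = s ^ ((3 : ℝ) / 4) * (nn ^ ((1 : ℝ) / 4 - δ / 16) * nn ^ (-(δ / 16))) := by rw [h5]
      _ ≤ s ^ ((3 : ℝ) / 4) * (nn ^ ((1 : ℝ) / 4 - δ / 16) * (h : ℝ) ^ (-(6 * δ))) := by gcongr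
      _ = s ^ ((3 : ℝ) / 4) * K := by rw [hK]
  have U3 : (∑ y ∈ cls P h x, ∑ q ∈ range (N + 1), Lam q *
      (if rr P h x q y < ((4 : ℝ) ^ J)⁻¹ then rr P h x q y else 0)) * s ≤
      s ^ ((7 : ℝ) / 4) * K * (Real.log Yr / 4) := by
    calc _ ≤ (36 * ((2 : ℝ) ^ J)⁻¹ * s * Real.log N) * s := mul_le_mul_of_nonneg_right S2 hs0.le
      _ = (36 * ((2 : ℝ) ^ J)⁻¹ * Real.log N) * (s * s) := by ring
      _ ≤ (nn ^ (-(δ / 8)) * (Real.log Yr / 4)) * (s * s) :=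
          mul_le_mul_of_nonneg_right hJ2 (by positivity)
      _ = s * (s * nn ^ (-(δ / 8))) * (Real.log Yr / 4) := by ring
      _ ≤ s * (s ^ ((3 : ℝ) / 4) * K) * (Real.log Yr / 4) := by gcongr
      _ = (s * s ^ ((3 : ℝ) / 4)) * K * (Real.log Yr / 4) := by ring
      _ = _ := by rw [hs74]
  have hRHS : 0 ≤ s ^ ((7 : ℝ) / 4) * K := by positivity
  have hfin : (Fh P (Yr ^ 2) h x : ℝ) * Real.log Yr ≤ (s ^ ((7 : ℝ) / 4) * K) * Real.log Yr := by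
    have h1 : 0 ≤ s ^ ((7 : ℝ) / 4) * K * Real.log Yr := by positivity
    linarith
  exact le_of_mul_le_mul_right hfin hlogY

end Pool.Agent.Helper74.GP
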